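import Pool.Agent.Lib.MP_c052b4_al.Mg.G092
import Pool.Agent.Lib.MP_c052b4_al.Mg.G078

/-!
# Groups acting on trees without conditions on the edge stabilizers
-/

set_option autoImplicit false
set_option linter.unusedSectionVars false

namespace Pool.Agent.Lib.MP_c052b4_al

open Matrix

universe u v w w'

section UWTree

variable {G : Type v} [Group G] {V : Type w} {E : Type w'} [MulAction G V] [MulAction G E]
  (O : OTree G V E)

theorem OTree.relN_iff (m : ℕ) (x y : E ⊕ E) : relN O.fol m x y ↔ O.rch m x y := by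
  induction m generalizing y with
  | zero => rw [relN_zero, O.rch_zero]
  | succ m ih =>
    rw [relN_succ, O.rch_succ]
    simp only [ih]

/-- trees have unique walks -/
theorem OTree.uw : UW O.fol where
  len := by
    intro m n a b h1 h2
    rw [O.relN_iff] at h1 h2
    exact O.rch_unique h1 h2
  mid := by
    intro m
    induction m with
    | zero =>
      intro n a b c c' h1 _ h3 _
      rw [relN_zero] at h1 h3
      rw [h1, h3]
    | succ m ih =>
      intro n a b c c' h1 h2 h3 h4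
      obtain ⟨y, hy, h5⟩ := relN_succ'.1 h1
      obtain ⟨y', hy', h6⟩ := relN_succ'.1 h3
      have h7 : relN O.fol (m + n) y b := relN_add.2 ⟨c, h5, h2⟩
      have h8 : relN O.fol (m + n) y' b := relN_add.2 ⟨c', h6, h4⟩
      have h9 : y = y' := O.rch_first_step hy hy' ((O.relN_iff _ _ _).1 h7)
        ((O.relN_iff _ _ _).1 h8)
      subst h9
      exact ih h5 h2 h6 h4

end UWTree

section Main

variable {R : Type u} [Ring R] {G : Type v} [Group G] {V : Type w} {E : Type w'}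
    [MulAction G V] [MulAction G E] (O : OTree G V E)

include O in
/-- **`A₁` is onto for groups acting on trees**, if the classes of the nilpotent matrices supported
along the edges come from subgroups. -/
theorem imA1_of_otree' (hV : ∀ v : V, imA1 R (MulAction.stabilizer G v) = ⊤)
    (hE : ∀ e : E, KSurj R (MulAction.stabilizer G e))
    (hD : ∀ {ι : Type} [Fintype ι] [DecidableEq ι] (l : ι → E ⊕ E)
      (N : Matrix ι ι (MonoidAlgebra R G)), Sp l l O.fol N → IsNilpotent N →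
      kk (-N) ∈ imA1 R G) : imA1 R G = ⊤ := by
  classical
  rw [eq_top_iff]
  intro x _
  obtain ⟨n, U, rfl⟩ := exists_k1 x
  obtain ⟨r⟩ : Nonempty V := O.tree.connected.nonempty
  obtain ⟨F, M, D, L, hDs, hDt, hL, hLe⟩ := exists_cdata O r U
  set A := MonoidAlgebra R G with hA
  obtain ⟨U1, hU1, hk1⟩ := D.exists_unit
  -- the nilpotent part
  have hnil : kk (-D.Nh) ∈ imA1 R G := hD (CData.lD M.lE) D.Nh D.sp_Nh D.isNilpotent_Nh
  -- the vertex part
  set P : Matrix (M.ι ⊕ Fin n) M.κ A := fromRows (D.p * D.s - (1 - D.p) * D.t) D.B with hP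
  set Θ : Matrix (M.ι ⊕ Fin n) M.κ A := fromRows (D.s - D.t) D.B with hΘ
  set Θ' : Matrix M.κ (M.ι ⊕ Fin n) A := fromCols D.ρ D.σ with hΘ'
  have hΘΘ' : Θ * Θ' = 1 := by
    rw [hΘ, hΘ', fromRows_mul_fromCols, D.e2, D.e3, D.e4, D.e5, fromBlocks_one]
  have hΘ'Θ : Θ' * Θ = 1 := by
    rw [hΘ, hΘ', fromCols_mul_fromRows, D.e1]
  let U1m : Matrix (M.ι ⊕ Fin n) (M.ι ⊕ Fin n) A := U1
  let U1i : Matrix (M.ι ⊕ Fin n) (M.ι ⊕ Fin n) A :=
    ((U1⁻¹ : (Matrix (M.ι ⊕ Fin n) (M.ι ⊕ Fin n) A)ˣ) : Matrix (M.ι ⊕ Fin n) (M.ι ⊕ Fin n) A)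
  have hmi : U1m * U1i = 1 := Units.mul_inv U1
  have him : U1i * U1m = 1 := Units.inv_mul U1
  have hU1' : U1m = P * Θ' := hU1
  have hPe : P = U1m * Θ := by
    rw [hU1', Matrix.mul_assoc, hΘ'Θ, Matrix.mul_one]
  let C : Matrix M.κ (M.ι ⊕ Fin n) A := Θ' * U1i
  have hPC : P * C = 1 := by
    change P * (Θ' * U1i) = 1
    rw [← Matrix.mul_assoc, ← hU1', hmi]
  have hCP : C * P = 1 := by
    change Θ' * U1i * P = 1
    rw [hPe, Matrix.mul_assoc, ← Matrix.mul_assoc U1i, him, Matrix.one_mul, hΘ'Θ]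
  let T : Matrix (M.ι ⊕ Fin n) M.κ R := fromRows (zc R M.s - zc R M.t) (zc R M.i0)
  let T' : Matrix M.κ (M.ι ⊕ Fin n) R := fromCols (zc R M.ρ) (zc R M.a)
  have hTT' : T * T' = 1 := by
    change fromRows _ _ * fromCols _ _ = 1
    rw [fromRows_mul_fromCols, e2', e3', e4', e5', fromBlocks_one]
  have hT'T : T' * T = 1 := by
    change fromCols _ _ * fromRows _ _ = 1
    rw [fromCols_mul_fromRows, e1']
  have hT'A : T'.map (cG R G) = fromCols (zc A M.ρ) (zc A M.a) := by
    refine Matrix.ext fun i j => ?_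
    rcases j with j | j
    · change cG R G ((M.ρ i j : ℤ) : R) = ((M.ρ i j : ℤ) : A)
      exact map_intCast _ _
    · change cG R G ((M.a i j : ℤ) : R) = ((M.a i j : ℤ) : A)
      exact map_intCast _ _
  have hfin : ((U1 * L : (Matrix (M.ι ⊕ Fin n) (M.ι ⊕ Fin n) A)ˣ) :
      Matrix (M.ι ⊕ Fin n) (M.ι ⊕ Fin n) A) = P * T'.map (cG R G) := by
    change U1m * (L : Matrix (M.ι ⊕ Fin n) (M.ι ⊕ Fin n) A) = _
    rw [hT'A, hPe, Matrix.mul_assoc, ← hLe]
  have hmem := k1_vertex_mem M.lE M.lV O.o O.t O.o_smul O.t_smul r D.p D.p_mul_p D.hg_p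
    (D.p * D.s - (1 - D.p) * D.t) D.B (by
      have h1 : D.p * (D.p * D.s - (1 - D.p) * D.t) = D.p * D.s := by
        rw [Matrix.mul_sub, ← Matrix.mul_assoc, ← Matrix.mul_assoc, D.p_mul_p, D.p_mul_one_sub,
          Matrix.zero_mul, sub_zero]
      rw [h1]
      exact Hg.mul O.o_smul D.hg_p D.hs) (by
      have h1 : (1 - D.p) * (D.p * D.s - (1 - D.p) * D.t) = -((1 - D.p) * D.t) := by
        rw [Matrix.mul_sub, ← Matrix.mul_assoc, ← Matrix.mul_assoc, D.one_sub_mul_p,
          D.one_sub_idem', Matrix.zero_mul, zero_sub]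
      rw [h1]
      exact (Hg.mul O.t_smul ((hg_one M.lE).sub D.hg_p) D.ht).neg) D.hB C hPC hCP T T' hTT' hT'T
      (U1 * L) hfin hV hE
  rw [k1_mul, hk1, hL] at hmem
  have h1 := AddSubgroup.add_mem _ hnil hmem
  rwa [add_neg_cancel_left] at h1

end Main

end Pool.Agent.Lib.MP_c052b4_al
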