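import Pool.Agent.Lib.MP_c052b4_al.LN.Main
import Pool.Agent.Lib.MP_c052b4_al.LN.Tree
import Pool.Agent.Lib.MP_c052b4_al.Mg.G081

/-!
# The class of groups: tree actions with well-behaved lines
-/

set_option autoImplicit false
set_option linter.unusedSectionVars false

namespace Pool.Agent.Lib.MP_c052b4_al

open Matrix MulAction

universe u v w w'

/-- Lines: bi-infinite walks without backtracking. -/
def IsLine {V : Type w} (T : SimpleGraph V) (ℓ : ℤ → V) : Prop :=
  ∀ n : ℤ, T.Adj (ℓ n) (ℓ (n + 1)) ∧ ℓ (n + 2) ≠ ℓ n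

section OT

variable {G : Type v} [Group G] {V : Type w} {E : Type w'} [MulAction G V] [MulAction G E]
  (O : OTree G V E) {ξ : ℤ → E ⊕ E}

theorem OTree.dd_line (h : ∀ n, O.fol (ξ n) (ξ (n + 1))) (n : ℤ) :
    (O.dd (ξ n)).1 = (O.org (ξ n), O.org (ξ (n + 1))) := by
  refine Prod.ext (O.org_eq _).symm ?_
  rw [O.org_eq (ξ (n + 1))]
  exact (h n).1.symm

theorem OTree.isLine (h : ∀ n, O.fol (ξ n) (ξ (n + 1))) : IsLine O.T (fun n => O.org (ξ n)) := by
  intro n
  constructor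
  · have h1 := (O.dd (ξ n)).2
    rw [O.dd_line h n] at h1
    exact h1
  · have h1 := (h n).2
    rw [O.dd_line h n, O.dd_line h (n + 1)] at h1
    rwa [show n + 1 + 1 = n + 2 by ring] at h1

theorem OTree.smul_line_iff (h : ∀ n, O.fol (ξ n) (ξ (n + 1))) (g : G) (m : ℤ) :
    (∀ n, g • ξ n = ξ (n + m)) ↔ ∀ n, g • O.org (ξ n) = O.org (ξ (n + m)) := by
  constructor
  · intro h1 n
    rw [← O.org_smul, h1]
  · intro h1 n
    apply O.dd_injective
    apply Subtype.ext
    rw [O.dd_line h (n + m)]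
    refine Prod.ext ?_ ?_
    · rw [O.dd_smul_fst, O.dd_line h n]
      exact h1 n
    · rw [O.dd_smul_snd, O.dd_line h n]
      have := h1 (n + 1)
      rwa [show n + 1 + m = n + m + 1 by ring] at this

theorem OTree.trl_eq (h : ∀ n, O.fol (ξ n) (ξ (n + 1))) :
    Trl G ξ = Trl G (fun n => O.org (ξ n)) := by
  ext g
  rw [mem_trl, mem_trl]
  exact exists_congr fun m => O.smul_line_iff h g m

end OT

section Trees

variable {G : Type v} [Group G] {V : Type w} [MulAction G V] (T : TreeAction G V)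

include T in
/-- **Main theorem.** -/
theorem hk_of_tree_lines (hv : ∀ v : V, HK.{u} (stabilizer G v))
    (he : ∀ x y : V, T.graph.Adj x y → ∀ (R : Type u) [Ring R], IsRegularRing R →
      KSurj R ↥(stabilizer G x ⊓ stabilizer G y))
    (hs : ∀ ℓ : ℤ → V, IsLine T.graph ℓ → LocPer G ℓ → ∃ a b : ℤ, ∀ g : G,
      (∀ n, a ≤ n → n ≤ b → g • ℓ n = ℓ n) → ∀ n, g • ℓ n = ℓ n)
    (ht : ∀ ℓ : ℤ → V, IsLine T.graph ℓ → (∃ (g : G) (m : ℤ), m ≠ 0 ∧ ∀ n, g • ℓ n = ℓ (n + m)) →
      HK.{u} (Trl G ℓ)) : HK.{u} G := by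
  intro R _ hR
  refine imA1_of_otree' T.otree (fun v => hv v R hR) (fun e => ?_) ?_
  · rw [T.stabilizer_edge]
    exact he _ _ e.adj R hR
  · intro ι _ _ l N hN hnil
    refine kk_mem_of_lines T.otree.fol_smul T.otree.uw l N hN hnil ?_ ?_
    · intro ξ hξ hper
      obtain ⟨a, b, hab⟩ := hs _ (T.otree.isLine hξ) (by
        obtain ⟨p, hp, h⟩ := hper
        refine ⟨p, hp, fun N => ?_⟩
        obtain ⟨g, hg⟩ := h N
        exact ⟨g, fun n hn => by rw [← T.otree.org_smul, hg n hn]⟩)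
      refine ⟨a, b, fun h hh => ?_⟩
      have h1 : ∀ n, h • T.otree.org (ξ n) = T.otree.org (ξ n) :=
        hab h fun n hn1 hn2 => by rw [← T.otree.org_smul, hh n hn1 hn2]
      have h2 := (T.otree.smul_line_iff hξ h 0).2 fun n => by rw [add_zero]; exact h1 n
      intro n
      have h3 := h2 n
      rwa [add_zero] at h3
    · intro ξ g p hξ hp hg
      rw [T.otree.trl_eq hξ]
      refine ht _ (T.otree.isLine hξ) ⟨g, p, by omega, fun n => ?_⟩ R hR
      exact (T.otree.smul_line_iff hξ g p).1 hg n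

end Trees

end Pool.Agent.Lib.MP_c052b4_al
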