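import Pool.Agent.Lib.MP_c052b4_al.Vas

/-!
# Elimination of a set of basis elements from the class of a nilpotent matrix
-/

set_option autoImplicit false
set_option linter.unusedSectionVars false

namespace Pool.Agent.Lib.MP_c052b4_al

open Matrix

universe v

variable {T : Type v} [Ring T] {n : Type*} [Fintype n] [DecidableEq n]

theorem kk_neg_comm {m : Type*} [Fintype m] [DecidableEq m] (r : Matrix n m T) (c : Matrix m n T) :
    kk (-(r * c)) = kk (-(c * r)) := by
  rw [← Matrix.neg_mul, kk_comm, Matrix.mul_neg]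

/-- **Elimination.** If the block of `e` vanishes and all return terms from `e` to `e` through `f`
vanish, then the class of `1 - M` is that of its block at `f`. -/
theorem kk_elim (e f M : Matrix n n T) (hef : e + f = 1) (he : e * e = e) (hf : f * f = f)
    (h1 : e * f = 0) (h2 : f * e = 0) (h3 : e * M * e = 0)
    (h4 : ∀ r : ℕ, (e * M * f) * (f * M * f) ^ r * (f * M * e) = 0)
    (h5 : IsNilpotent (f * M * f)) : kk (-M) = kk (-(f * M * f)) := by
  set A := e * M * f with hA
  set B := f * M * e with hB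
  set Z := f * M * f with hZ
  have hM : M = A + B + Z := by
    have : M = (e + f) * M * (e + f) := by rw [hef, Matrix.one_mul, Matrix.mul_one]
    rw [this]
    simp only [Matrix.add_mul, Matrix.mul_add]
    rw [h3, zero_add, hA, hB, hZ]
    abel
  obtain ⟨k, hk⟩ := h5
  obtain ⟨U, hU⟩ : IsUnit (1 - Z) := IsNilpotent.isUnit_one_sub ⟨k, hk⟩
  set S : Matrix n n T := ∑ i ∈ Finset.range k, Z ^ i with hS
  have hS1 : (1 - Z) * S = 1 := by
    rw [hS, mul_neg_geom_sum, hk, sub_zero]
  have hS2 : S * (1 - Z) = 1 := by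
    rw [hS, geom_sum_mul_neg, hk, sub_zero]
  have hASB : A * S * B = 0 := by
    rw [hS, Finset.mul_sum, Finset.sum_mul]
    exact Finset.sum_eq_zero fun r _ => h4 r
  have hZe : Z * e = 0 := by rw [hZ, Matrix.mul_assoc, h2, Matrix.mul_zero]
  have heZ : e * Z = 0 := by rw [hZ, ← Matrix.mul_assoc, ← Matrix.mul_assoc, h1, Matrix.zero_mul,
    Matrix.zero_mul]
  have hSe : S * e = e := by
    have : S * ((1 - Z) * e) = S * e := by
      rw [Matrix.sub_mul, Matrix.one_mul, hZe, sub_zero]
    rw [← this, ← Matrix.mul_assoc, hS2, Matrix.one_mul]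
  have heS : e * S = e := by
    have : e * (1 - Z) * S = e * S := by
      rw [Matrix.mul_sub, Matrix.mul_one, heZ, sub_zero]
    rw [← this, Matrix.mul_assoc, hS1, Matrix.mul_one]
  have hAe : A * e = 0 := by rw [hA, Matrix.mul_assoc, h2, Matrix.mul_zero]
  have heA : e * A = A := by rw [hA, ← Matrix.mul_assoc, ← Matrix.mul_assoc, he]
  have heB : e * B = 0 := by rw [hB, ← Matrix.mul_assoc, ← Matrix.mul_assoc, h1, Matrix.zero_mul,
    Matrix.zero_mul]
  have hBe : B * e = B := by rw [hB, Matrix.mul_assoc, he]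
  -- the two unipotent factors
  have hX0 : kk (-(A * S)) = 0 := by
    have : A * S = e * (A * S) := by rw [← Matrix.mul_assoc, heA]
    rw [this, kk_neg_comm, Matrix.mul_assoc, hSe, hAe, neg_zero, kk_zero]
  have hY0 : kk (-(S * B)) = 0 := by
    have : S * B = (S * B) * e := by rw [Matrix.mul_assoc, hBe]
    rw [this, kk_neg_comm, ← Matrix.mul_assoc, heS, heB, neg_zero, kk_zero]
  have hX2 : (A * S) * (A * S) = 0 := by
    calc (A * S) * (A * S) = (A * S) * ((e * A) * S) := by rw [heA]
      _ = A * (S * e) * (A * S) := by simp only [Matrix.mul_assoc]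
      _ = 0 := by rw [hSe, hAe, Matrix.zero_mul]
  have hY2 : (S * B) * (S * B) = 0 := by
    calc (S * B) * (S * B) = (S * (B * e)) * (S * B) := by rw [hBe]
      _ = S * B * ((e * S) * B) := by simp only [Matrix.mul_assoc]
      _ = 0 := by rw [heS, heB, Matrix.mul_zero]
  have hXu : IsUnit (1 + -(A * S)) := by
    refine ⟨⟨1 + -(A * S), 1 + A * S, ?_, ?_⟩, rfl⟩
    · simp only [Matrix.add_mul, Matrix.mul_add, Matrix.one_mul, Matrix.mul_one, Matrix.neg_mul,
        hX2]
      abel
    · simp only [Matrix.add_mul, Matrix.mul_add, Matrix.one_mul, Matrix.mul_one, Matrix.mul_neg,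
        hX2]
      abel
  have hYu : IsUnit (1 + -(S * B)) := by
    refine ⟨⟨1 + -(S * B), 1 + S * B, ?_, ?_⟩, rfl⟩
    · simp only [Matrix.add_mul, Matrix.mul_add, Matrix.one_mul, Matrix.mul_one, Matrix.neg_mul,
        hY2]
      abel
    · simp only [Matrix.add_mul, Matrix.mul_add, Matrix.one_mul, Matrix.mul_one, Matrix.mul_neg,
        hY2]
      abel
  have hZu : IsUnit (1 + -Z) := ⟨U, by rw [hU, sub_eq_add_neg]⟩
  have hprod : (1 + -(A * S)) * (1 + -Z) * (1 + -(S * B)) = 1 + -M := by
    have e1 : (1 + -(A * S)) * (1 + -Z) = 1 + -Z + -A := by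
      have : (A * S) * (1 + -Z) = A := by
        rw [Matrix.mul_assoc, ← sub_eq_add_neg, hS2, Matrix.mul_one]
      rw [Matrix.add_mul, Matrix.one_mul, Matrix.neg_mul, this]
    rw [e1, Matrix.mul_add, Matrix.mul_one, Matrix.mul_neg, Matrix.add_mul, ← Matrix.mul_assoc,
      ← sub_eq_add_neg (1 : Matrix n n T) Z, hS1, Matrix.one_mul, Matrix.neg_mul,
      ← Matrix.mul_assoc, hASB, hM]
    abel
  have e2 : kk (-(A * S) + -Z + -(A * S) * -Z) = kk (-(A * S)) + kk (-Z) := kk_mul hXu hZu
  have e3 : 1 + (-(A * S) + -Z + -(A * S) * -Z) = (1 + -(A * S)) * (1 + -Z) := by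
    simp only [Matrix.add_mul, Matrix.mul_add, Matrix.one_mul, Matrix.mul_one]
    abel
  have hXZu : IsUnit (1 + (-(A * S) + -Z + -(A * S) * -Z)) := by
    rw [e3]
    exact hXu.mul hZu
  have e4 := kk_mul hXZu hYu
  have e5 : -(A * S) + -Z + -(A * S) * -Z + -(S * B) +
      (-(A * S) + -Z + -(A * S) * -Z) * -(S * B) = -M := by
    have e6 : 1 + (-(A * S) + -Z + -(A * S) * -Z + -(S * B) +
      (-(A * S) + -Z + -(A * S) * -Z) * -(S * B)) =
        (1 + (-(A * S) + -Z + -(A * S) * -Z)) * (1 + -(S * B)) := by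
      simp only [Matrix.add_mul, Matrix.mul_add, Matrix.one_mul, Matrix.mul_one]
      abel
    rw [e3, hprod] at e6
    exact add_left_cancel e6
  rw [e5, e2, hX0, hY0, zero_add, add_zero] at e4
  exact e4

end Pool.Agent.Lib.MP_c052b4_al
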