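import Pool.Agent.Lib.MP_c052b4_al.Mg.G092
import Pool.Agent.Lib.MP_c052b4_al.Mg.G093

/-!
# Compactness: long periodic windows are rigid
-/

set_option autoImplicit false
set_option linter.unusedSectionVars false

namespace Pool.Agent.Lib.MP_c052b4_al

universe u v w

/-- A form of König's lemma. -/
theorem koenig {G : Type v} [Group G] {X : Type w} [MulAction G X] (B : ℕ → ℤ → X) (q : ℕ → ℕ)
    (c : ∀ ρ : ℕ, Fin (q ρ) → ℤ → X)
    (h : ∀ ρ r : ℕ, ρ ≤ r → ∃ (j : Fin (q ρ)) (γ : G), ∀ n : ℤ, n.natAbs ≤ ρ →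
      B r n = γ • c ρ j n) (k : ℕ) (χ : ℕ → ℕ) (hχ : ∀ r, χ r < k) :
    ∃ (a : ℤ → X) (p : ℕ), ∀ ρ N : ℕ, ∃ r ≥ N, χ r = p ∧
      ∃ γ : G, ∀ n : ℤ, n.natAbs ≤ ρ → B r n = γ • a n := by
  classical
  let U : Ultrafilter ℕ := Filter.hyperfilter ℕ
  have hge : ∀ N : ℕ, {r | N ≤ r} ∈ U := fun N =>
    Nat.hyperfilter_le_atTop (Filter.mem_atTop N)
  have h1 : ∀ ρ : ℕ, ∃ j : Fin (q ρ), {r | ∃ γ : G, ∀ n : ℤ, n.natAbs ≤ ρ →
      B r n = γ • c ρ j n} ∈ U := by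
    intro ρ
    have h2 : (⋃ j ∈ (Set.univ : Set (Fin (q ρ))), {r | ∃ γ : G, ∀ n : ℤ, n.natAbs ≤ ρ →
      B r n = γ • c ρ j n}) ∈ U := by
      refine Filter.mem_of_superset (hge ρ) fun r hr => ?_
      obtain ⟨j, γ, hj⟩ := h ρ r hr
      exact Set.mem_biUnion (Set.mem_univ j) ⟨γ, hj⟩
    obtain ⟨j, -, hj⟩ := (Ultrafilter.finite_biUnion_mem_iff Set.finite_univ).1 h2
    exact ⟨j, hj⟩
  choose j hj using h1
  obtain ⟨p, hp⟩ : ∃ p : ℕ, {r | χ r = p} ∈ U := by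
    have h2 : (⋃ p ∈ Set.Iio k, {r | χ r = p}) ∈ U := by
      refine Filter.mem_of_superset Filter.univ_mem fun r _ => ?_
      exact Set.mem_biUnion (Set.mem_Iio.2 (hχ r)) rfl
    obtain ⟨p, -, hp⟩ := (Ultrafilter.finite_biUnion_mem_iff (Set.finite_Iio k)).1 h2
    exact ⟨p, hp⟩
  have h2 : ∀ ρ : ℕ, ∃ γ : G, ∀ n : ℤ, n.natAbs ≤ ρ →
      c (ρ + 1) (j (ρ + 1)) n = γ • c ρ (j ρ) n := by
    intro ρ
    obtain ⟨r, ⟨γ, hγ⟩, ⟨γ', hγ'⟩⟩ := Ultrafilter.nonempty_of_mem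
      (Filter.inter_mem (hj ρ) (hj (ρ + 1)))
    refine ⟨γ'⁻¹ * γ, fun n hn => ?_⟩
    rw [mul_smul, ← hγ n hn, hγ' n (by omega), inv_smul_smul]
  choose γ hγ using h2
  let δ : ℕ → G := fun ρ => Nat.rec 1 (fun ρ d => d * (γ ρ)⁻¹) ρ
  have hδ : ∀ ρ, δ (ρ + 1) = δ ρ * (γ ρ)⁻¹ := fun ρ => rfl
  let e : ℕ → ℤ → X := fun ρ n => δ ρ • c ρ (j ρ) n
  have he : ∀ ρ (n : ℤ), n.natAbs ≤ ρ → e (ρ + 1) n = e ρ n := by
    intro ρ n hn
    change δ (ρ + 1) • c (ρ + 1) (j (ρ + 1)) n = δ ρ • c ρ (j ρ) n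
    rw [hδ, hγ ρ n hn, mul_smul, inv_smul_smul]
  have he' : ∀ (n : ℤ) (d : ℕ), e (n.natAbs + d) n = e n.natAbs n := by
    intro n d
    induction d with
    | zero => rfl
    | succ d ih => rw [← Nat.add_assoc, he _ n (by omega), ih]
  refine ⟨fun n => e n.natAbs n, p, fun ρ N => ?_⟩
  obtain ⟨r, ⟨⟨γ', hγ'⟩, hr⟩, hrp⟩ := Ultrafilter.nonempty_of_mem
    (Filter.inter_mem (Filter.inter_mem (hj ρ) (hge N)) hp)
  refine ⟨r, hr, hrp, γ' * (δ ρ)⁻¹, fun n hn => ?_⟩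
  change B r n = _ • e n.natAbs n
  obtain ⟨d, rfl⟩ : ∃ d, ρ = n.natAbs + d := ⟨ρ - n.natAbs, by omega⟩
  rw [← he' n d, mul_smul, hγ' n hn]
  change _ = γ' • (δ (n.natAbs + d))⁻¹ • δ (n.natAbs + d) • _
  rw [inv_smul_smul]

variable {R : Type u} [Ring R] {G : Type v} [Group G] {X : Type w} [MulAction G X]
  {F : X → X → Prop} {k : ℕ} {κ : KOne (MonoidAlgebra R G)}

/-- periodic windows of length `w` are rigid -/
def LSeq.Rigid (S : LSeq R G F k κ) (w : ℕ) : Prop :=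
  ∀ (i : Fin (S.lv w).n) (g : G) (p : ℕ), 1 ≤ p → p < k →
    (∀ s, s + p ≤ w → g • (S.lv w).lab i s = (S.lv w).lab i (s + p)) →
    ∀ h : G, (∀ s, k * k + 1 ≤ s → s + (k * k + 1) ≤ w →
      h • (S.lv w).lab i s = (S.lv w).lab i s) →
    ∀ n : ℤ, h • axis g p ((S.lv w).lab i) n = axis g p ((S.lv w).lab i) n

/-- A line is locally periodic if for some `p ≥ 1` every finite segment of it is shifted by `p`
along the line by some group element. -/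
def LocPer (G : Type v) [Group G] {X : Type w} [MulAction G X] (ξ : ℤ → X) : Prop :=
  ∃ p : ℕ, 1 ≤ p ∧ ∀ N : ℕ, ∃ g : G, ∀ n : ℤ, n.natAbs ≤ N → g • ξ n = ξ (n + p)

/-- **Compactness.** -/
theorem LSeq.exists_rigid (S : LSeq R G F k κ)
    (hF : ∀ (g : G) x y, F (g • x) (g • y) ↔ F x y)
    (hSeg : ∀ ξ : ℤ → X, (∀ n, F (ξ n) (ξ (n + 1))) → LocPer G ξ → ∃ a b : ℤ, ∀ h : G,
      (∀ n, a ≤ n → n ≤ b → h • ξ n = ξ n) → ∀ n, h • ξ n = ξ n) (w0 : ℕ) :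
    ∃ w ≥ w0, S.Rigid w := by
  classical
  by_contra hno
  push Not at hno
  let r0 := w0 + k
  have hbad : ∀ r : ℕ, ¬ S.Rigid (2 * (r + r0)) := fun r => hno _ (by omega)
  unfold LSeq.Rigid at hbad
  push Not at hbad
  choose i g p hp1 hpk hper h hfix n0 hn0 using hbad
  let B : ℕ → ℤ → X := fun r n => axis (g r) (p r) ((S.lv (2 * (r + r0))).lab (i r)) (n + (r + r0 : ℕ))
  have hBg : ∀ r n, g r • B r n = B r (n + p r) := by
    intro r n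
    change g r • axis _ _ _ _ = axis _ _ _ _
    rw [axis_smul _ (hp1 r)]
    congr 1
    ring
  have hBl : ∀ r n, F (B r n) (B r (n + 1)) := by
    intro r n
    have := axis_line hF (hp1 r) (w := 2 * (r + r0)) (by have := hpk r; omega) (hper r)
      (fun s hs => (S.lv (2 * (r + r0))).chain (i r) s hs) (n + (r + r0 : ℕ))
    change F (axis _ _ _ _) (axis _ _ _ (n + 1 + (r + r0 : ℕ)))
    rwa [show n + 1 + ((r + r0 : ℕ) : ℤ) = n + ((r + r0 : ℕ) : ℤ) + 1 by ring]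
  have hBv : ∀ r (n : ℤ), n.natAbs ≤ r + r0 → ∃ s : ℕ, (s : ℤ) = n + (r + r0 : ℕ) ∧
      s ≤ 2 * (r + r0) ∧ B r n = (S.lv (2 * (r + r0))).lab (i r) s := by
    intro r n hn
    refine ⟨(n + (r + r0 : ℕ)).toNat, by omega, by omega, ?_⟩
    have h1 : (((n + (r + r0 : ℕ)).toNat : ℕ) : ℤ) = n + (r + r0 : ℕ) := by omega
    have h2 := axis_eq (hp1 r) (hper r) (n + (r + r0 : ℕ)).toNat (by omega)
    rw [h1] at h2
    exact h2
  obtain ⟨a, P, ha⟩ := koenig (G := G) B (fun ρ => (S.lv (2 * ρ)).n)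
    (fun ρ j n => (S.lv (2 * ρ)).lab j (n + ρ).toNat) (by
      intro ρ r hρ
      obtain ⟨d, hd⟩ : ∃ d, 2 * (r + r0) = 2 * ρ + d := ⟨2 * (r + r0) - 2 * ρ, by omega⟩
      have hw : ∀ (L : ℕ) (hL : L = 2 * ρ + d) (i : Fin (S.lv L).n) t, t ≤ d →
          ∃ (j : Fin (S.lv (2 * ρ)).n) (g : G), ∀ s ≤ 2 * ρ,
            (S.lv L).lab i (t + s) = g • (S.lv (2 * ρ)).lab j s := by
        rintro L rfl
        exact S.win (2 * ρ) d
      obtain ⟨j, γ, hj⟩ := hw _ hd (i r) (r + r0 - ρ) (by omega)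
      refine ⟨j, γ, fun n hn => ?_⟩
      obtain ⟨s, hs1, hs2, hs3⟩ := hBv r n (by omega)
      have := hj (n + ρ).toNat (by omega)
      rw [hs3, ← this]
      congr 1
      omega) k p hpk
  have hal : ∀ n, F (a n) (a (n + 1)) := by
    intro n
    obtain ⟨r, -, -, γ, hγ⟩ := ha (n.natAbs + 1) 0
    have := hBl r n
    rwa [hγ n (by omega), hγ (n + 1) (by omega), hF] at this
  have hper' : LocPer G a := by
    refine ⟨P, ?_, fun N => ?_⟩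
    · obtain ⟨r, -, hrP, -⟩ := ha 0 0
      rw [← hrP]
      exact hp1 r
    · obtain ⟨r, -, hrP, γ, hγ⟩ := ha (N + P) 0
      refine ⟨γ⁻¹ * g r * γ, fun n hn => ?_⟩
      have h1 := hBg r n
      rw [hrP, hγ n (by omega), hγ (n + P) (by omega)] at h1
      rw [mul_smul, mul_smul, h1, inv_smul_smul]
  obtain ⟨α, β', hαβ'⟩ := hSeg a hal hper'
  -- a nonempty segment
  obtain ⟨β, hβ1, hβ⟩ : ∃ β, α ≤ β ∧ ∀ h : G, (∀ n, α ≤ n → n ≤ β → h • a n = a n) →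
      ∀ n, h • a n = a n := by
    refine ⟨max α β', le_max_left _ _, fun h hh => hαβ' h fun n h1 h2 => hh n h1 ?_⟩
    exact le_trans h2 (le_max_right _ _)
  obtain ⟨r, hr, -, γ, hγ⟩ := ha (α.natAbs + β.natAbs + k)
    (α.natAbs + β.natAbs + k + (k * k + 1))
  let B' : ℤ → X := fun n => γ⁻¹ • B r n
  have hB'a : ∀ n : ℤ, n.natAbs ≤ α.natAbs + β.natAbs + k → B' n = a n := by
    intro n hn
    change γ⁻¹ • B r n = a n
    rw [hγ n hn, inv_smul_smul]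
  have hB'g : ∀ n, (γ⁻¹ * g r * γ) • B' n = B' (n + p r) := by
    intro n
    change (γ⁻¹ * g r * γ) • γ⁻¹ • B r n = γ⁻¹ • B r (n + p r)
    rw [← hBg, mul_smul, mul_smul, smul_inv_smul]
  have hpr := hpk r
  have hglob := fix_global (hp1 r) hB'g hβ1 (by
    intro h' hh' n hn1 hn2
    rw [hB'a n (by omega)]
    refine hβ h' (fun n hn1 hn2 => ?_) n
    have := hh' n hn1 hn2
    rwa [hB'a n (by omega)] at this)
  have hfin := hglob (γ⁻¹ * h r * γ) (by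
    intro n hn1 hn2
    change (γ⁻¹ * h r * γ) • γ⁻¹ • B r n = γ⁻¹ • B r n
    rw [mul_smul, mul_smul, smul_inv_smul]
    congr 1
    obtain ⟨s, hs1, hs2, hs3⟩ := hBv r n (by omega)
    rw [hs3]
    exact hfix r s (by omega) (by omega))
  apply hn0 r
  have h1 := hfin (n0 r - (r + r0 : ℕ))
  change (γ⁻¹ * h r * γ) • γ⁻¹ • B r _ = γ⁻¹ • B r _ at h1
  rw [mul_smul, mul_smul, smul_inv_smul] at h1
  have h2 := smul_left_cancel _ h1
  change h r • axis _ _ _ (n0 r - (r + r0 : ℕ) + (r + r0 : ℕ)) =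
    axis _ _ _ (n0 r - (r + r0 : ℕ) + (r + r0 : ℕ)) at h2
  rwa [sub_add_cancel] at h2

end Pool.Agent.Lib.MP_c052b4_al
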