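import Pool.Agent.Lib.MP_c052b4_al.Mg.G093
import Pool.Agent.Lib.MP_c052b4_al.Mg.G092

/-!
# Reduction to periodic windows
-/

set_option autoImplicit false
set_option linter.unusedSectionVars false

namespace Pool.Agent.Lib.MP_c052b4_al

open Matrix

universe u v w

section Ty

variable (G : Type v) [Group G] {X : Type w} [MulAction G X] (k w : ℕ)

/-- periodic windows -/
def Per (v : ℕ → X) : Prop :=
  ∃ (g : G) (p : ℕ), 1 ≤ p ∧ p < k ∧ ∀ s, s + p ≤ w → g • v s = v (s + p)

/-- windows in the same orbit -/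
def Orb (u v : ℕ → X) : Prop := ∃ g : G, ∀ s ≤ w, v s = g • u s

/-- The type of a window: `q` if it is periodic, otherwise the number of its orbit. -/
noncomputable def ty {q : ℕ} (lw : Fin q → ℕ → X) (v : ℕ → X) : ℕ :=
  open Classical in
  if Per G k w v then q else sInf {j | ∃ h : j < q, Orb G w (lw ⟨j, h⟩) v}

variable {G k w}

theorem per_congr {v v' : ℕ → X} (h : ∀ s ≤ w, v s = v' s) (hp : Per G k w v) : Per G k w v' := by
  obtain ⟨g, p, h1, h2, h3⟩ := hp
  refine ⟨g, p, h1, h2, fun s hs => ?_⟩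
  rw [← h s (by omega), ← h (s + p) hs]
  exact h3 s hs

theorem per_smul {v : ℕ → X} (h : G) (hp : Per G k w v) : Per G k w (h • v) := by
  obtain ⟨g, p, h1, h2, h3⟩ := hp
  refine ⟨h * g * h⁻¹, p, h1, h2, fun s hs => ?_⟩
  rw [Pi.smul_apply, Pi.smul_apply, ← h3 s hs, mul_smul, inv_smul_smul, mul_smul]

theorem per_smul_iff {v : ℕ → X} (h : G) : Per G k w (h • v) ↔ Per G k w v := by
  refine ⟨fun hp => ?_, per_smul h⟩
  have := per_smul h⁻¹ hp
  rwa [inv_smul_smul] at this

theorem orb_smul_iff {u v : ℕ → X} (h : G) : Orb G w u (h • v) ↔ Orb G w u v := by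
  constructor
  · rintro ⟨g, hg⟩
    refine ⟨h⁻¹ * g, fun s hs => ?_⟩
    rw [mul_smul, ← hg s hs, Pi.smul_apply, inv_smul_smul]
  · rintro ⟨g, hg⟩
    exact ⟨h * g, fun s hs => by rw [Pi.smul_apply, hg s hs, mul_smul]⟩

theorem orb_congr {u v v' : ℕ → X} (h : ∀ s ≤ w, v s = v' s) : Orb G w u v ↔ Orb G w u v' := by
  constructor
  · rintro ⟨g, hg⟩
    exact ⟨g, fun s hs => by rw [← h s hs, hg s hs]⟩
  · rintro ⟨g, hg⟩
    exact ⟨g, fun s hs => by rw [h s hs, hg s hs]⟩

variable {q : ℕ} {lw : Fin q → ℕ → X}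

theorem ty_eq_of {v v' : ℕ → X} (h1 : Per G k w v ↔ Per G k w v')
    (h2 : ∀ u : ℕ → X, Orb G w u v ↔ Orb G w u v') : ty G k w lw v = ty G k w lw v' := by
  have h3 : {j | ∃ h : j < q, Orb G w (lw ⟨j, h⟩) v} =
      {j | ∃ h : j < q, Orb G w (lw ⟨j, h⟩) v'} := by
    ext j
    constructor
    · rintro ⟨h, h'⟩
      exact ⟨h, (h2 _).1 h'⟩
    · rintro ⟨h, h'⟩
      exact ⟨h, (h2 _).2 h'⟩
  unfold ty
  rw [h3]
  by_cases hp : Per G k w v
  · rw [if_pos hp, if_pos (h1.1 hp)]
  · rw [if_neg hp, if_neg fun h => hp (h1.2 h)]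

theorem ty_smul (h : G) (v : ℕ → X) : ty G k w lw (h • v) = ty G k w lw v :=
  ty_eq_of (per_smul_iff h) fun _ => orb_smul_iff h

theorem ty_congr {v v' : ℕ → X} (h : ∀ s ≤ w, v s = v' s) :
    ty G k w lw v = ty G k w lw v' :=
  ty_eq_of ⟨per_congr h, per_congr fun s hs => (h s hs).symm⟩ fun _ => orb_congr h

theorem ty_spec {v : ℕ → X} (hv : ∃ j, Orb G w (lw j) v) (hp : ¬ Per G k w v) :
    ∃ h : ty G k w lw v < q, Orb G w (lw ⟨ty G k w lw v, h⟩) v := by
  have hne : {j | ∃ h : j < q, Orb G w (lw ⟨j, h⟩) v}.Nonempty := by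
    obtain ⟨j, hj⟩ := hv
    exact ⟨j.1, j.2, hj⟩
  have h1 : ty G k w lw v = sInf {j | ∃ h : j < q, Orb G w (lw ⟨j, h⟩) v} := by
    unfold ty
    rw [if_neg hp]
  have h2 := Nat.sInf_mem hne
  rw [← h1] at h2
  exact h2

theorem per_of_le {v : ℕ → X} (hv : ∃ j, Orb G w (lw j) v) (h : q ≤ ty G k w lw v) :
    Per G k w v := by
  by_contra hp
  obtain ⟨h1, -⟩ := ty_spec hv hp
  omega

theorem ty_of_per {v : ℕ → X} (hp : Per G k w v) : ty G k w lw v = q := by
  unfold ty
  rw [if_pos hp]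

/-- positions of the same type at distance less than `k` are periodic -/
theorem ty_ap {a : ℕ → X} {T : ℕ} (ha : ∀ t ≤ T, ∃ j, Orb G w (lw j) (fun s => a (t + s))) :
    ∀ s t, s ≠ t → s < t + k → t < s + k → s ≤ T → t ≤ T →
      ty G k w lw (fun u => a (s + u)) = ty G k w lw (fun u => a (t + u)) →
      q ≤ ty G k w lw (fun u => a (t + u)) := by
  have key : ∀ s t, s < t → t < s + k → s ≤ T → t ≤ T →
      ty G k w lw (fun u => a (s + u)) = ty G k w lw (fun u => a (t + u)) →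
      q ≤ ty G k w lw (fun u => a (t + u)) := by
    intro s t hst htk hs ht heq
    by_contra hlt
    have hp1 : ¬ Per G k w (fun u => a (s + u)) := fun h => hlt (by rw [← heq, ty_of_per h])
    have hp2 : ¬ Per G k w (fun u => a (t + u)) := fun h => hlt (by rw [ty_of_per h])
    obtain ⟨h1, g1, hg1⟩ := ty_spec (ha s hs) hp1
    obtain ⟨h2, g2, hg2⟩ := ty_spec (ha t ht) hp2
    have h3 : lw ⟨ty G k w lw (fun u => a (t + u)), h2⟩ =
        lw ⟨ty G k w lw (fun u => a (s + u)), h1⟩ := by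
      congr 1
      exact Fin.ext heq.symm
    apply hp1
    refine ⟨g2 * g1⁻¹, t - s, by omega, by omega, fun u hu => ?_⟩
    have e1 : a (s + u) = _ := hg1 u (by omega)
    have e2 : a (t + u) = _ := hg2 u (by omega)
    rw [h3] at e2
    change (g2 * g1⁻¹) • a (s + u) = a (s + (u + (t - s)))
    rw [show s + (u + (t - s)) = t + u by omega, e2, e1, mul_smul, inv_smul_smul]
  intro s t hne h1 h2 hs ht heq
  rcases Nat.lt_or_gt_of_ne hne with h | h
  · exact key s t h h2 hs ht heq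
  · rw [← heq]
    exact key t s h h1 ht hs heq.symm

end Ty

variable {R : Type u} [Ring R] {G : Type v} [Group G] {X : Type w} [MulAction G X]
  {F : X → X → Prop} {k : ℕ} {κ : KOne (MonoidAlgebra R G)}

theorem Lev.sp {L : ℕ} (A : Lev R G F k κ L) (hF : ∀ (g : G) x y, F (g • x) (g • y) ↔ F x y) :
    Sp A.lab A.lab (St F L) A.M := by
  intro i j g hg
  obtain ⟨h1, h2⟩ := A.supp i j g hg
  exact ⟨h1, h2, ⟨A.chain i, A.const i⟩, (wk_smul hF g _).2 ⟨A.chain j, A.const j⟩⟩

theorem kk_pj {Y : Type w} [MulAction G Y] {ι : Type*} [Fintype ι] [DecidableEq ι] (l : ι → Y)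
    (P : Y → Prop) (M : Matrix ι ι (MonoidAlgebra R G)) :
    kk (-(pj R G l P * M * pj R G l P)) = kk (-(pj R G l P * M)) := by
  rw [kk_neg_comm, ← Matrix.mul_assoc, pj_mul_pj]
  congr 3
  exact pj_congr l fun a => and_self_iff

/-- **Reduction to periodic windows.** -/
theorem kk_reduce (S : LSeq R G F k κ) (hF : ∀ (g : G) x y, F (g • x) (g • y) ↔ F x y)
    (hU : UW F) (hk2 : 2 ≤ k) (w : ℕ) :
    ∃ (d t1 : ℕ) (Y : Matrix (Fin (S.lv (w + d)).n) (Fin (S.lv (w + d)).n) (MonoidAlgebra R G)),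
      κ = kk (-Y) ∧ t1 + 1 ≤ d ∧ ∀ i j g, (Y i j).coeff g ≠ 0 →
        (∀ t < w + d, g • (S.lv (w + d)).lab j t = (S.lv (w + d)).lab i (t + 1)) ∧
        Per G k w (fun s => (S.lv (w + d)).lab i (t1 + s)) ∧
        Per G k w (fun s => (S.lv (w + d)).lab i (t1 + 1 + s)) ∧
        Per G k w (fun s => (S.lv (w + d)).lab j (t1 + s)) := by
  classical
  obtain ⟨W, hW⟩ : ∃ W, W = 2 * (k * (S.lv w).n) + 1 := ⟨_, rfl⟩
  obtain ⟨t0, ht0⟩ : ∃ t0, t0 = W + k := ⟨_, rfl⟩
  obtain ⟨T, hT⟩ : ∃ T, T = t0 + k - 1 := ⟨_, rfl⟩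
  let A := S.lv (w + T)
  let Φ : (ℕ → X) → ℕ → ℕ := fun a t => ty G k w (S.lv w).lab (fun s => a (t + s))
  have hΦg : ∀ (g : G) (a : ℕ → X), Φ (g • a) = Φ a := by
    intro g a
    funext t
    exact ty_smul g (fun s => a (t + s))
  have hΦm : ∀ m (a b : ℕ → X), relN (St F (w + T)) m a b → ∀ t, t + m ≤ T →
      Φ b t = Φ a (t + m) := by
    intro m a b h t ht
    apply ty_congr
    intro s hs
    have := relN_st_shift h (t + s) (by omega)
    rw [this]
    congr 1
    omega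
  have hMkg : ∀ (g : G) (a : ℕ → X) t, Mk k (S.lv w).n (Φ (g • a)) t ↔ Mk k (S.lv w).n (Φ a) t := by
    intro g a t
    rw [hΦg]
  let D : ℕ → (ℕ → X) → Prop := fun j a => ∀ j' ≤ j, ¬ Mk k (S.lv w).n (Φ a) (t0 - j')
  have hDg : ∀ j (g : G) (a : ℕ → X), D j (g • a) ↔ D j a := by
    intro j g a
    simp only [D, hMkg]
  have hS : ∀ (g : G) x y, St F (w + T) (g • x) (g • y) ↔ St F (w + T) x y := st_smul hF
  have hM := A.sp hF
  have e1 : kk (-A.M) = kk (-(pj R G A.lab (D 0) * A.M)) := by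
    rw [kk_markers A.lab (St F (w + T)) hS
      (fun m n a b c c' h1 h2 h3 h4 => relN_st_mid hU h1 h2 h3 h4) hM A.nil hk2
      (fun a => Mk k (S.lv w).n (Φ a) t0) (fun g y => hMkg g y t0)]
    · rw [kk_pj]
      congr 3
      refine pj_congr _ fun a => ?_
      constructor
      · intro h j' hj'
        obtain rfl : j' = 0 := by omega
        exact h
      · intro h
        exact h 0 le_rfl
    · intro m hm1 hmk a b h h1 h2
      exact mk_shift_absurd hm1 hmk (by omega) (fun t ht => hΦm m a b h t (by omega)) h1 h2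
  have e2 : ∀ j ≤ W, kk (-(pj R G A.lab (D 0) * A.M)) = kk (-(pj R G A.lab (D j) * A.M)) := by
    intro j
    induction j with
    | zero => intro _; rfl
    | succ j ih =>
      intro hj
      rw [ih (by omega)]
      refine kk_tri A.lab (St F (w + T)) hM (D j) (D (j + 1)) (D 0) (hDg _) (hDg _) ?_ ?_ ?_
      · intro a b hab ha hb j' hj'
        rcases j' with _ | i
        · exact hb 0 le_rfl
        · intro hMk
          have h1 : Mk k (S.lv w).n (Φ a) (t0 - (i + 1) + 1) := by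
            refine mk_shift (T := T - 1) (fun t ht => ?_) (by omega) (by omega) (by omega) hMk
            exact hΦm 1 a b (relN_one.2 hab) t (by omega)
          rw [show t0 - (i + 1) + 1 = t0 - i by omega] at h1
          exact ha i (by omega) h1
      · intro a ha j' hj'
        exact ha j' (by omega)
      · intro a ha j' hj'
        exact ha j' (by omega)
  refine ⟨T, k + k * (S.lv w).n, pj R G A.lab (D W) * A.M * pj R G A.lab (D W), ?_, by omega, ?_⟩
  · rw [kk_pj, ← e2 W le_rfl, ← e1]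
    exact A.cls.symm
  · intro i j g hg
    rw [pj_mul_mul_pj A.lab (hDg W)] at hg
    change (cpA {g | D W (A.lab i) ∧ D W (g • A.lab j)} (A.M i j)).coeff g ≠ 0 at hg
    rw [coeff_cpA] at hg
    by_cases h1 : D W (A.lab i) ∧ D W (g • A.lab j)
    · rw [if_pos (show g ∈ {g | D W (A.lab i) ∧ D W (g • A.lab j)} from h1)] at hg
      obtain ⟨h2, h3⟩ := h1
      rw [hDg] at h3
      have hper : ∀ i, D W (A.lab i) → ∀ t, k + k * (S.lv w).n ≤ t → t ≤ k + k * (S.lv w).n + 1 →
          Per G k w (fun s => A.lab i (t + s)) := by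
        intro i hi t ht1 ht2
        have hwin : ∀ t ≤ T, ∃ j, Orb G w ((S.lv w).lab j) (fun s => A.lab i (t + s)) := by
          intro t ht
          obtain ⟨j, g, hj⟩ := S.win w T i t ht
          exact ⟨j, g, hj⟩
        refine per_of_le (hwin t (by omega)) ?_
        refine no_marker (lo := t0 - W) (hi := t0) (k := k) (T := T)
          (Φ := Φ (A.lab i)) (ty_ap hwin) (by omega) (by omega) ?_ (by omega) (by omega)
        intro t' h4 h5
        have := hi (t0 - t') (by omega)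
        rwa [show t0 - (t0 - t') = t' by omega] at this
      refine ⟨(A.supp i j g hg).1, hper i h2 _ le_rfl (by omega), hper i h2 _ (by omega) (by omega),
        hper j h3 _ le_rfl (by omega)⟩
    · rw [if_neg (show g ∉ {g | D W (A.lab i) ∧ D W (g • A.lab j)} from h1)] at hg
      exact absurd rfl hg

end Pool.Agent.Lib.MP_c052b4_al
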