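import Pool.Agent.Lib.MP_c052b4_al.LN.Compact
import Pool.Agent.Lib.MP_c052b4_al.LN.Types
import Pool.Agent.Lib.MP_c052b4_al.TR.K2b

/-!
# Classes of nilpotent matrices over a relation with unique walks
-/

set_option autoImplicit false
set_option linter.unusedSectionVars false

namespace Pool.Agent.Lib.MP_c052b4_al

open Matrix

universe u v w

/-- The elements translating a line. -/
def Trl (G : Type v) [Group G] {X : Type w} [MulAction G X] (ξ : ℤ → X) : Subgroup G where
  carrier := {g | ∃ m : ℤ, ∀ n, g • ξ n = ξ (n + m)}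
  mul_mem' := by
    rintro g h ⟨m, hm⟩ ⟨m', hm'⟩
    refine ⟨m' + m, fun n => ?_⟩
    rw [mul_smul, hm', hm, add_assoc]
  one_mem' := ⟨0, fun n => by rw [one_smul, add_zero]⟩
  inv_mem' := by
    rintro g ⟨m, hm⟩
    refine ⟨-m, fun n => ?_⟩
    rw [inv_smul_eq_iff, hm, neg_add_cancel_right]

theorem mem_trl {G : Type v} [Group G] {X : Type w} [MulAction G X] {ξ : ℤ → X} {g : G} :
    g ∈ Trl G ξ ↔ ∃ m : ℤ, ∀ n, g • ξ n = ξ (n + m) := Iff.rfl

section Lines

variable (G : Type v) [Group G] {X : Type w} [MulAction G X] (F : X → X → Prop)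

/-- The property of being the set of points of a translated line. -/
def IsTL (A : Set X) : Prop :=
  ∃ (ξ : ℤ → X) (g : G) (p : ℕ), (∀ n, F (ξ n) (ξ (n + 1))) ∧ 1 ≤ p ∧
    (∀ n, g • ξ n = ξ (n + p)) ∧ A = Set.range ξ

/-- The set of translated lines. -/
def TLn : Type w := {A : Set X // IsTL G F A}

variable {G F}

theorem IsTL.image (hF : ∀ (g : G) x y, F (g • x) (g • y) ↔ F x y) (h : G) {A : Set X}
    (hA : IsTL G F A) : IsTL G F ((fun x => h • x) '' A) := by
  obtain ⟨ξ, g, p, h1, h2, h3, rfl⟩ := hA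
  refine ⟨fun n => h • ξ n, h * g * h⁻¹, p, fun n => (hF h _ _).2 (h1 n), h2, fun n => ?_, ?_⟩
  · rw [mul_smul, inv_smul_smul, mul_smul, h3]
  · rw [← Set.range_comp]
    rfl

/-- the action on the lines -/
@[reducible] def tlAct (hF : ∀ (g : G) x y, F (g • x) (g • y) ↔ F x y) : MulAction G (TLn G F) where
  smul h A := ⟨(fun x => h • x) '' A.1, A.2.image hF h⟩
  one_smul A := by
    apply Subtype.ext
    change (fun x => (1 : G) • x) '' A.1 = A.1
    simp only [one_smul, Set.image_id']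
  mul_smul g h A := by
    apply Subtype.ext
    change (fun x => (g * h) • x) '' A.1 = (fun x => g • x) '' ((fun x => h • x) '' A.1)
    rw [Set.image_image]
    simp only [mul_smul]

theorem line_relN {ξ : ℤ → X} (h : ∀ n, F (ξ n) (ξ (n + 1))) (m : ℕ) (n : ℤ) :
    relN F m (ξ n) (ξ (n + m)) := by
  induction m with
  | zero => 
    rw [relN_zero]
    congr 1
    simp
  | succ m ih =>
    refine ⟨_, ih, ?_⟩
    have := h (n + m)
    rwa [show n + ((m + 1 : ℕ) : ℤ) = n + m + 1 by push_cast; ring]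

/-- on a line only consecutive points are related -/
theorem line_step (hU : UW F) {ξ : ℤ → X} (h : ∀ n, F (ξ n) (ξ (n + 1))) {a b : ℤ}
    (hab : F (ξ a) (ξ b)) : b = a + 1 := by
  rcases le_or_gt b a with h1 | h1
  · exfalso
    obtain ⟨m, hm⟩ : ∃ m : ℕ, a = b + m := ⟨(a - b).toNat, by omega⟩
    have h2 := line_relN h m b
    rw [← hm] at h2
    have h3 : relN F (m + 1) (ξ b) (ξ b) := ⟨_, h2, hab⟩
    have h4 := hU.len h3 (relN_zero.2 rfl)
    omega
  · obtain ⟨m, hm⟩ : ∃ m : ℕ, b = a + m := ⟨(b - a).toNat, by omega⟩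
    have h2 := line_relN h m a
    rw [← hm] at h2
    have h4 := hU.len h2 (relN_one.2 hab)
    omega

theorem line_injective (hU : UW F) {ξ : ℤ → X} (h : ∀ n, F (ξ n) (ξ (n + 1))) :
    Function.Injective ξ := by
  intro a b hab
  have h1 := h a
  rw [hab] at h1
  have h2 := line_step hU h h1
  omega

/-- the elements preserving the set of points of a line translate it -/
theorem mem_trl_of_image (hF : ∀ (g : G) x y, F (g • x) (g • y) ↔ F x y) (hU : UW F) {ξ : ℤ → X}
    (h : ∀ n, F (ξ n) (ξ (n + 1))) {g : G}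
    (hg : (fun x => g • x) '' Set.range ξ = Set.range ξ) : g ∈ Trl G ξ := by
  have h1 : ∀ n, ∃ m, ξ m = g • ξ n := by
    intro n
    have : g • ξ n ∈ Set.range ξ := by
      rw [← hg]
      exact ⟨ξ n, ⟨n, rfl⟩, rfl⟩
    exact this
  choose σ hσ using h1
  have h2 : ∀ n, σ (n + 1) = σ n + 1 := by
    intro n
    apply line_step hU h
    rw [hσ, hσ, hF]
    exact h n
  have h3 : ∀ n : ℤ, σ n = n + σ 0 := by
    intro n
    induction n with
    | zero => rw [zero_add]
    | succ n ih => rw [h2, ih]; ring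
    | pred n ih =>
      have := h2 (-(n : ℤ) - 1)
      rw [sub_add_cancel, ih] at this
      omega
  exact ⟨σ 0, fun n => by rw [← hσ, h3]⟩

theorem image_of_mem_trl {ξ : ℤ → X} {g : G} (hg : g ∈ Trl G ξ) :
    (fun x => g • x) '' Set.range ξ = Set.range ξ := by
  obtain ⟨m, hm⟩ := hg
  ext x
  constructor
  · rintro ⟨_, ⟨n, rfl⟩, rfl⟩
    exact ⟨n + m, (hm n).symm⟩
  · rintro ⟨n, rfl⟩
    refine ⟨ξ (n - m), ⟨_, rfl⟩, ?_⟩
    change g • ξ (n - m) = ξ n
    rw [hm, sub_add_cancel]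

end Lines

variable {R : Type u} [Ring R] {G : Type v} [Group G] {X : Type w} [MulAction G X]
  {F : X → X → Prop}

theorem kk_mem_of_hg {V : Type w} [MulAction G V] {ι : Type} [Fintype ι] [DecidableEq ι]
    (z : ι → V) (Y : Matrix ι ι (MonoidAlgebra R G))
    (hY : ∀ i j g, (Y i j).coeff g ≠ 0 → g • z j = z i)
    (hV : ∀ v : V, imA1 R (MulAction.stabilizer G v) = ⊤) : kk (-Y) ∈ imA1 R G := by
  classical
  unfold kk
  split_ifs with h
  · apply k1_hg_mem z _ _ hV
    rw [IsUnit.unit_spec]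
    exact (hg_one z).add (Hg.neg fun i j g hg => hY i j g hg)
  · exact AddSubgroup.zero_mem _

/-- **Main lemma.** -/
theorem kk_mem_of_lines (hF : ∀ (g : G) x y, F (g • x) (g • y) ↔ F x y) (hU : UW F)
    {ι : Type*} [Fintype ι] [DecidableEq ι] (l : ι → X) (N : Matrix ι ι (MonoidAlgebra R G))
    (hN : Sp l l F N) (hnil : IsNilpotent N)
    (hSeg : ∀ ξ : ℤ → X, (∀ n, F (ξ n) (ξ (n + 1))) → LocPer G ξ → ∃ a b : ℤ, ∀ h : G,
      (∀ n, a ≤ n → n ≤ b → h • ξ n = ξ n) → ∀ n, h • ξ n = ξ n)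
    (hTr : ∀ (ξ : ℤ → X) (g : G) (p : ℕ), (∀ n, F (ξ n) (ξ (n + 1))) → 1 ≤ p →
      (∀ n, g • ξ n = ξ (n + p)) → imA1 R (Trl G ξ) = ⊤) : kk (-N) ∈ imA1 R G := by
  classical
  let _ : MulAction G (TLn G F) := tlAct hF
  obtain ⟨k0, hk0⟩ := hnil
  obtain ⟨k, hk, hk2⟩ : ∃ k, N ^ k = 0 ∧ 2 ≤ k :=
    ⟨k0 + 2, by rw [pow_add, hk0, Matrix.zero_mul], by omega⟩
  obtain ⟨A0⟩ := exists_lev_zero (F := F) (k := k) l N hN hk
  obtain ⟨S⟩ := exists_lseq hF hU (by omega) A0
  obtain ⟨w, hw, hrig⟩ := S.exists_rigid hF hSeg (2 * (k * k + 1) + k)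
  obtain ⟨d, t1, Y, hY1, hY2, hY3⟩ := kk_reduce S hF hU hk2 w
  rw [hY1]
  have hst : ∀ A : TLn G F, imA1 R (MulAction.stabilizer G A) = ⊤ := by
    intro A
    obtain ⟨ξ, g, p, h1, h2, h3, hA⟩ := A.2
    have h4 : MulAction.stabilizer G A = Trl G ξ := by
      ext h
      rw [MulAction.mem_stabilizer_iff]
      have h6 : h • A = A ↔ (fun x => h • x) '' A.1 = A.1 := Subtype.ext_iff
      rw [h6, hA]
      exact ⟨fun h5 => mem_trl_of_image hF hU h1 h5, fun h5 => image_of_mem_trl h5⟩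
    rw [h4]
    exact hTr ξ g p h1 h2 h3
  -- the windows
  obtain ⟨lab, hlab⟩ : ∃ lab : Fin (S.lv (w + d)).n → ℕ → X, lab = (S.lv (w + d)).lab := ⟨_, rfl⟩
  rw [← hlab] at hY3
  have hchain : ∀ i t, t < w + d → F (lab i t) (lab i (t + 1)) := by
    rw [hlab]
    exact (S.lv (w + d)).chain
  have hrig2 : ∀ (i : Fin (S.lv (w + d)).n) (t : ℕ), t ≤ d → ∀ (g : G) (p : ℕ), 1 ≤ p → p < k →
      (∀ s, s + p ≤ w → g • lab i (t + s) = lab i (t + (s + p))) →
      ∀ h : G, (∀ s, k * k + 1 ≤ s → s + (k * k + 1) ≤ w → h • lab i (t + s) = lab i (t + s)) →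
      ∀ n : ℤ, h • axis g p (fun s => lab i (t + s)) n = axis g p (fun s => lab i (t + s)) n := by
    intro i t ht g p hp hpk hper h hh n
    obtain ⟨j, γ, hj⟩ := S.win w d i t ht
    rw [← hlab] at hj
    have hax : ∀ n, axis g p (fun s => lab i (t + s)) n =
        γ • axis (γ⁻¹ * g * γ) p ((S.lv w).lab j) n :=
      axis_conj g γ hp fun s hs => hj s (by omega)
    rw [hax]
    have h5 := hrig j (γ⁻¹ * g * γ) p hp hpk (by
      intro s hs
      have h6 := hper s hs
      rw [hj s (by omega), hj (s + p) hs] at h6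
      rw [mul_smul, mul_smul, h6, inv_smul_smul]) (γ⁻¹ * h * γ) (by
      intro s h1 h2
      have h6 := hh s h1 h2
      rw [hj s (by omega)] at h6
      rw [mul_smul, mul_smul, h6, inv_smul_smul]) n
    rw [mul_smul, mul_smul, inv_smul_eq_iff] at h5
    exact h5
  by_cases hZ : Nonempty (TLn G F)
  · obtain ⟨z0⟩ := hZ
    have hz : ∀ i, ∃ z : TLn G F, ∀ hper : Per G k w (fun s => lab i (t1 + s)),
        ∃ (g : G) (p : ℕ), 1 ≤ p ∧ p < k ∧
          (∀ s, s + p ≤ w → g • lab i (t1 + s) = lab i (t1 + (s + p))) ∧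
          z.1 = Set.range (axis g p (fun s => lab i (t1 + s))) := by
      intro i
      by_cases hper : Per G k w (fun s => lab i (t1 + s))
      · obtain ⟨g, p, h1, h2, h3⟩ := hper
        refine ⟨⟨Set.range (axis g p (fun s => lab i (t1 + s))), _, g, p, ?_, h1,
          axis_smul g h1 _, rfl⟩, fun _ => ⟨g, p, h1, h2, h3, rfl⟩⟩
        exact axis_line hF h1 (w := w) (by omega) h3 fun s hs => hchain i (t1 + s) (by omega)
      · exact ⟨z0, fun h => absurd h hper⟩
    choose z hz using hz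
    refine kk_mem_of_hg z Y ?_ hst
    intro i j g0 hg0
    obtain ⟨h1, h2, -, h4⟩ := hY3 i j g0 hg0
    obtain ⟨g, p, a1, a2, a3, a4⟩ := hz i h2
    obtain ⟨g', p', b1, b2, b3, b4⟩ := hz j h4
    apply Subtype.ext
    change (fun x => g0 • x) '' (z j).1 = (z i).1
    rw [a4, b4]
    -- the two lines
    let ξ : ℤ → X := axis g p (fun s => lab i (t1 + s))
    let ξ' : ℤ → X := fun n => g0 • axis g' p' (fun s => lab j (t1 + s)) (n - 1)
    have hpp : p * p' ≤ k * k := Nat.mul_le_mul a2.le b2.le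
    have hξ : ξ = ξ' := by
      refine line_eq (g := g) (g' := g0 * g' * g0⁻¹) a1 b1 (axis_smul g a1 _) ?_
        (α := 1) (β := w) ?_ ?_ ?_
      · intro n
        change (g0 * g' * g0⁻¹) • g0 • axis g' p' _ (n - 1) = g0 • axis g' p' _ (n + p' - 1)
        rw [mul_smul, mul_smul, inv_smul_smul, axis_smul g' b1]
        congr 2
        ring
      · intro n hn1 hn2
        obtain ⟨s, rfl⟩ : ∃ s : ℕ, n = ((s + 1 : ℕ) : ℤ) := ⟨(n - 1).toNat, by omega⟩
        change axis g p _ _ = g0 • axis g' p' _ _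
        rw [axis_eq a1 a3 (s + 1) (by omega), show (((s + 1 : ℕ) : ℤ) - 1) = (s : ℤ) by
          push_cast; ring, axis_eq b1 b3 s (by omega), h1 (t1 + s) (by omega)]
        rfl
      · have : ((p * p' : ℕ) : ℤ) ≤ ((k * k : ℕ) : ℤ) := by exact_mod_cast hpp
        push_cast at this
        have hw' : ((2 * (k * k + 1) + k : ℕ) : ℤ) ≤ (w : ℤ) := by exact_mod_cast hw
        push_cast at hw'
        nlinarith
      · intro h hh
        refine hrig2 i t1 (by omega) g p a1 a2 a3 h ?_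
        intro s hs1 hs2
        have h5 := hh (s : ℤ) (by omega) (by
          have : ((p * p' : ℕ) : ℤ) ≤ ((k * k : ℕ) : ℤ) := by exact_mod_cast hpp
          push_cast at this
          have hs3 : ((s + (k * k + 1) : ℕ) : ℤ) ≤ (w : ℤ) := by exact_mod_cast hs2
          push_cast at hs3
          linarith)
        change h • axis g p _ _ = axis g p _ _ at h5
        rw [axis_eq a1 a3 s (by omega)] at h5
        exact h5
    have hξ2 : Set.range (axis g p (fun s => lab i (t1 + s))) = Set.range ξ' := by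
      rw [← hξ]
    rw [hξ2]
    ext x
    constructor
    · rintro ⟨_, ⟨n, rfl⟩, rfl⟩
      refine ⟨n + 1, ?_⟩
      change g0 • axis g' p' _ (n + 1 - 1) = _
      rw [add_sub_cancel_right]
    · rintro ⟨n, rfl⟩
      exact ⟨_, ⟨n - 1, rfl⟩, rfl⟩
  · have hY0 : Y = 0 := by
      refine Matrix.ext fun i j => ?_
      ext g
      by_contra hg
      obtain ⟨-, h2, -, -⟩ := hY3 i j g hg
      obtain ⟨g, p, h1, h2, h3⟩ := h2
      exact hZ ⟨⟨Set.range (axis g p (fun s => lab i (t1 + s))), _, g, p,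
        axis_line hF h1 (w := w) (by omega) h3 fun s hs => hchain i (t1 + s) (by omega), h1,
          axis_smul g h1 _, rfl⟩⟩
    rw [hY0, neg_zero, kk_zero]
    exact AddSubgroup.zero_mem _

end Pool.Agent.Lib.MP_c052b4_al
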